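import Mathlib

/-!
# AV: the first moment of `2 ^ rank` in the family `y² = x³ - D² x`, definitions
-/

set_option autoImplicit false

namespace Pool.Agent.AV

open Finset

/-- the indices of the sixteen variables -/
abbrev V : Type := Fin 4 × Fin 4

/-- the symbol `(D v / D u)` occurs -/
def occ (u v : V) : Bool := decide (u.1 ≠ u.2 ∧ v.1 ≠ u.1 ∧ v.1 ≠ u.2)

/-- exactly one of the two symbols occurs -/
def lk (u v : V) : Bool := xor (occ u v) (occ v u)

/-- number of prime factors -/
def om (m : ℕ) : ℕ := m.primeFactors.card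

/-- weight of one variable: `4 ^ (-ω(m))` on the odd squarefree numbers -/
noncomputable def gw (m : ℕ) : ℝ := if Squarefree m ∧ Odd m then (1 / 4 : ℝ) ^ om m else 0

/-- Jacobi symbol -/
noncomputable def js (a : ℤ) (m : ℕ) : ℝ := (jacobiSym a m : ℝ)

/-- factor of the ordered pair `u, v` -/
noncomputable def ph (u v : V) (a b : ℕ) : ℝ :=
  (if Nat.Coprime a b then 1 else 0) * (if occ u v then js b a else 1)

/-- weight of a tuple -/
noncomputable def wt (κ : V → ℤ) (D : V → ℕ) : ℝ :=
  (∏ u, gw (D u) * js (κ u) (D u)) * ∏ u, ∏ v ∈ univ.erase u, ph u v (D u) (D v)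

/-- sum over the factorisations of `n` -/
noncomputable def SS (κ : V → ℤ) (n : ℕ) : ℝ :=
  ∑ D ∈ (Fintype.piFinset fun _ : V => n.divisors).filter (fun D => ∏ u, D u = n), wt κ D

/-- the tent -/
noncomputable def Lam (x : ℝ) : ℝ := max 0 (1 - |x|)

/-- smoothed sum over a box -/
noncomputable def MS (κ : V → ℤ) (X : ℝ) (A : V → Finset ℕ) : ℝ :=
  ∑ D ∈ Fintype.piFinset A, wt κ D * Lam (Real.log ((∏ u, (D u : ℝ)) / X))

/-- the allowed constants -/
def K4 (k : ℤ) : Prop := k = 1 ∨ k = -1 ∨ k = 2 ∨ k = -2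

end Pool.Agent.AV
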