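import Pool.Agent.Lib_helper21.AV.Defs
import Pool.Agent.Lib_helper21.RB.HP

/-! # Definitions for the descent -/

set_option autoImplicit false

namespace Pool.Agent.AV

open Finset

/-- representative of a number `± 2 ^ j` modulo squares: `±1` or `±2` -/
def n4 (k : ℤ) : ℤ := k.sign * (if Even (k.natAbs.factorization 2) then 1 else 2)

/-- the constants of the sixteen symbols; `e` is `1` or `2` -/
def kap (e : ℤ) (x y z : ℤ) : V → ℤ := fun u =>
  ![![1, n4 (y * z), n4 (x * z), n4 (x * y)],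
    ![n4 (-(y * z)), 1, n4 (e * z), n4 (-(e * y))],
    ![n4 (2 * x * z), n4 (2 * e * z), 1, n4 (e * x)],
    ![n4 (2 * x * y), n4 (-(2 * e * y)), n4 (-(e * x)), 1]] u.1 u.2

/-- the set `{1, -1, 2, -2}` -/
def F4 : Finset ℤ := {1, -1, 2, -2}

/-- the local conditions on a factorisation `d 0 * d 1 * d 2 * d 3` -/
def cond (κ : V → ℤ) (d : Fin 4 → ℕ) : Prop :=
  ∀ i l : Fin 4, l ≠ i → ∀ p ∈ (d i).primeFactors,
    js (κ (i, l) * ∏ j ∈ univ.filter (fun j => j ≠ i ∧ j ≠ l), (d j : ℤ)) p = 1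

open scoped Classical in
/-- the factorisations of `n` with the local conditions -/
noncomputable def NN (κ : V → ℤ) (n : ℕ) : Finset (Fin 4 → ℕ) :=
  (Fintype.piFinset fun _ : Fin 4 => n.divisors).filter (fun d => ∏ i, d i = n ∧ cond κ d)

/-- product relation for the constants -/
def PR (κ : V → ℤ) : Prop := ∀ i : Fin 4, κ (i, i) = 1 ∧
  ∃ t : ℤ, ∏ l ∈ univ.erase i, κ (i, l) = t ^ 2

/-- the odd part -/
def op (D : ℕ) : ℕ := if Even D then D / 2 else D

/-- the part `1` or `2` -/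
def ep (D : ℕ) : ℤ := if Even D then 2 else 1

/-- the bound for `2 ^ rank` -/
noncomputable def GG (D : ℕ) : ℝ :=
  4 + ∑ x ∈ F4, ∑ y ∈ F4, ∑ z ∈ F4, ((NN (kap (ep D) x y z) (op D)).card : ℝ)

end Pool.Agent.AV
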