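import Pool.Agent.Lib_helper21.AV.Defs2
import Pool.Agent.Lib_helper21.AV.W.EXb

/-! # GB: the bound for `GG` in terms of the number of prime factors -/

set_option autoImplicit false

namespace Pool.Agent.AV

open Finset

theorem GB_card (κ : V → ℤ) (n : ℕ) (hn : Squarefree n) : ((NN κ n).card : ℝ) ≤ 4 ^ om n := by
  classical
  have h1 := expand_one n hn (fun _ _ => 1)
  simp only [sum_const, card_univ, Fintype.card_fin, prod_const_one, prod_const, nsmul_eq_mul,
    mul_one] at h1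
  have h2 : (NN κ n).card ≤ ((Fintype.piFinset fun _ : Fin 4 => n.divisors).filter
      (fun E => ∏ l, E l = n)).card := by
    apply card_le_card
    intro d hd
    unfold NN at hd
    simp only [mem_filter] at hd ⊢
    exact ⟨hd.1, hd.2.1⟩
  calc ((NN κ n).card : ℝ) ≤ (((Fintype.piFinset fun _ : Fin 4 => n.divisors).filter
      (fun E => ∏ l, E l = n)).card : ℝ) := by exact_mod_cast h2
    _ = 4 ^ om n := by
        rw [← h1]
        norm_num [om]

theorem GB_op {D : ℕ} (hD : Squarefree D) : Squarefree (op D) ∧ om (op D) ≤ om D := by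
  have h : op D ∣ D := by
    unfold op
    split_ifs with h
    · exact Nat.div_dvd_of_dvd h.two_dvd
    · exact dvd_rfl
  refine ⟨hD.squarefree_of_dvd h, ?_⟩
  exact card_le_card (Nat.primeFactors_mono h hD.ne_zero)

theorem GB_bound {D : ℕ} (hD : Squarefree D) : GG D ≤ 68 * 4 ^ om D := by
  obtain ⟨h1, h2⟩ := GB_op hD
  have h3 : ∀ κ : V → ℤ, ((NN κ (op D)).card : ℝ) ≤ 4 ^ om D := fun κ =>
    (GB_card κ _ h1).trans (pow_le_pow_right₀ (by norm_num) h2)
  have h4 : (1 : ℝ) ≤ 4 ^ om D := one_le_pow₀ (by norm_num)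
  have h5 : ∑ x ∈ F4, ∑ y ∈ F4, ∑ z ∈ F4, ((NN (kap (ep D) x y z) (op D)).card : ℝ) ≤
      ∑ x ∈ F4, ∑ y ∈ F4, ∑ z ∈ F4, (4 : ℝ) ^ om D :=
    sum_le_sum fun x _ => sum_le_sum fun y _ => sum_le_sum fun z _ => h3 _
  have h6 : F4.card = 4 := by decide
  simp only [sum_const, h6, nsmul_eq_mul] at h5
  unfold GG
  push_cast at h5
  linarith

end Pool.Agent.AV
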